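import Mathlib

/-!
# A maximum likelihood DPP kernel of rank larger than all training sets

Ground set of size three, training sets `∅, ∅, ∅, {0,1}, {0,2}, {1,2}`.  Every optimal kernel
has rank three.
-/

open Finset Matrix

namespace Pool.Agent.Results.MP_dbbe21_pr.RankFails

/-- A marginal kernel: real symmetric positive semidefinite with `1 - K` positive semidefinite,
so that all eigenvalues lie in `[0,1]`. -/
def IsMarginal {N : ℕ} (K : Matrix (Fin N) (Fin N) ℝ) : Prop :=
  K.PosSemidef ∧ (1 - K).PosSemidef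

/-- The principal minor `det K_S`. -/
noncomputable def minor {N : ℕ} (K : Matrix (Fin N) (Fin N) ℝ) (S : Finset (Fin N)) : ℝ :=
  (K.submatrix (fun x : {x // x ∈ S} => (x : Fin N)) (fun x : {x // x ∈ S} => (x : Fin N))).det

/-- `Pr[X = A]` for the determinantal process with marginal kernel `K`, by inclusion and
exclusion. -/
noncomputable def prob {N : ℕ} (K : Matrix (Fin N) (Fin N) ℝ) (A : Finset (Fin N)) : ℝ :=
  ∑ S ∈ (univ : Finset (Finset (Fin N))).filter (fun S => A ⊆ S),
    (-1 : ℝ) ^ (S \ A).card * minor K S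

/-- The likelihood of `K` on the training sets `X 0, …, X (m-1)`. -/
noncomputable def likelihood {N m : ℕ} (K : Matrix (Fin N) (Fin N) ℝ)
    (X : Fin m → Finset (Fin N)) : ℝ := ∏ t, prob K (X t)

/-- `K` maximises the likelihood over all marginal kernels. -/
def IsOptimal {N m : ℕ} (X : Fin m → Finset (Fin N)) (K : Matrix (Fin N) (Fin N) ℝ) : Prop :=
  IsMarginal K ∧ ∀ K' : Matrix (Fin N) (Fin N) ℝ, IsMarginal K' →
    likelihood K' X ≤ likelihood K X

/-- The function `prob K` is the only function on subsets whose upper sums are the principal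
minors of `K`; this is the defining property of the law of the process. -/
theorem prob_unique {N : ℕ} (K : Matrix (Fin N) (Fin N) ℝ) (p : Finset (Fin N) → ℝ)
    (hp : ∀ S, ∑ B ∈ (univ : Finset (Finset (Fin N))).filter (fun B => S ⊆ B), p B = minor K S)
    (A : Finset (Fin N)) : p A = prob K A := by
  unfold prob
  simp_rw [← hp, Finset.mul_sum]
  rw [Finset.sum_comm' (t' := (univ : Finset (Finset (Fin N))).filter (fun B => A ⊆ B))
    (s' := fun B => (univ : Finset (Finset (Fin N))).filter (fun S => A ⊆ S ∧ S ⊆ B))]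
  · have key : ∀ B ∈ (univ : Finset (Finset (Fin N))).filter (fun B => A ⊆ B),
        ∑ S ∈ (univ : Finset (Finset (Fin N))).filter (fun S => A ⊆ S ∧ S ⊆ B),
          (-1 : ℝ) ^ (S \ A).card * p B = if B = A then p A else 0 := by
      intro B hB
      have hAB : A ⊆ B := (Finset.mem_filter.mp hB).2
      rw [← Finset.sum_mul]
      have h1 : ∑ S ∈ (univ : Finset (Finset (Fin N))).filter (fun S => A ⊆ S ∧ S ⊆ B),
          (-1 : ℝ) ^ (S \ A).card = ∑ T ∈ (B \ A).powerset, (-1 : ℝ) ^ T.card := by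
        refine Finset.sum_nbij' (fun S => S \ A) (fun T => T ∪ A) ?_ ?_ ?_ ?_ ?_
        · intro S hS
          have := (Finset.mem_filter.mp hS).2
          exact Finset.mem_powerset.mpr (Finset.sdiff_subset_sdiff this.2 (le_refl _))
        · intro T hT
          have hT' := Finset.mem_powerset.mp hT
          refine Finset.mem_filter.mpr ⟨Finset.mem_univ _, Finset.subset_union_right, ?_⟩
          exact Finset.union_subset (hT'.trans Finset.sdiff_subset) hAB
        · intro S hS
          have := (Finset.mem_filter.mp hS).2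
          exact Finset.sdiff_union_of_subset this.1
        · intro T hT
          have hT' := Finset.mem_powerset.mp hT
          have : Disjoint T A := (Finset.disjoint_of_subset_left hT' Finset.sdiff_disjoint)
          simp only [Finset.union_sdiff_right]
          exact Finset.sdiff_eq_self_of_disjoint this
        · intro S _
          rfl
      rw [h1]
      have h2 := Finset.sum_powerset_neg_one_pow_card (x := B \ A)
      have h3 : ∑ T ∈ (B \ A).powerset, (-1 : ℝ) ^ T.card = if B \ A = ∅ then 1 else 0 := by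
        have := congrArg (fun z : ℤ => (z : ℝ)) h2
        push_cast at this
        simpa using this
      rw [h3]
      by_cases hBA : B = A
      · subst hBA
        simp
      · have : B \ A ≠ ∅ := by
          intro h
          exact hBA (Finset.Subset.antisymm (Finset.sdiff_eq_empty_iff_subset.mp h) hAB)
        simp [this, hBA]
    rw [Finset.sum_congr rfl key]
    simp
  · intro S B
    simp only [Finset.mem_filter, Finset.mem_univ, true_and]
    constructor
    · rintro ⟨h1, h2⟩
      exact ⟨⟨h1, h2⟩, h1.trans h2⟩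
    · rintro ⟨⟨h1, h2⟩, _⟩
      exact ⟨h1, h2⟩

/-! ### Minors -/

theorem minor_empty {N : ℕ} (K : Matrix (Fin N) (Fin N) ℝ) : minor K ∅ = 1 := by
  unfold minor
  have : IsEmpty {x // x ∈ (∅ : Finset (Fin N))} := ⟨fun x => (Finset.notMem_empty _ x.2).elim⟩
  exact Matrix.det_isEmpty

theorem minor_single {N : ℕ} (K : Matrix (Fin N) (Fin N) ℝ) (i : Fin N) :
    minor K {i} = K i i := by
  unfold minor
  let _ : Unique {x // x ∈ ({i} : Finset (Fin N))} :=
    { default := ⟨i, by simp⟩
      uniq := fun x => Subtype.ext (Finset.mem_singleton.mp x.2) }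
  rw [Matrix.det_unique]
  rfl

theorem minor_pair {N : ℕ} (K : Matrix (Fin N) (Fin N) ℝ) (i j : Fin N) (h : i ≠ j) :
    minor K {i, j} = K i i * K j j - K i j * K j i := by
  unfold minor
  let f : Fin 2 → {x // x ∈ ({i, j} : Finset (Fin N))} := ![⟨i, by simp⟩, ⟨j, by simp⟩]
  have hf : Function.Bijective f := by
    constructor
    · intro a b hab
      fin_cases a <;> fin_cases b <;> simp_all [f]
    · rintro ⟨x, hx⟩
      simp only [mem_insert, mem_singleton] at hx
      rcases hx with rfl | rfl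
      · exact ⟨0, rfl⟩
      · exact ⟨1, rfl⟩
  let e := Equiv.ofBijective f hf
  rw [← Matrix.det_submatrix_equiv_self e, Matrix.det_fin_two]
  rfl

theorem minor_univ (K : Matrix (Fin 3) (Fin 3) ℝ) : minor K univ = K.det := by
  unfold minor
  let e : Fin 3 ≃ {x // x ∈ (univ : Finset (Fin 3))} :=
    (Equiv.subtypeUnivEquiv (fun x => Finset.mem_univ x)).symm
  rw [← Matrix.det_submatrix_equiv_self e]
  rfl

/-- The sum of the three principal two by two minors. -/
noncomputable def e2 (K : Matrix (Fin 3) (Fin 3) ℝ) : ℝ :=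
  (K 0 0 * K 1 1 - K 0 1 * K 1 0) + (K 0 0 * K 2 2 - K 0 2 * K 2 0) +
    (K 1 1 * K 2 2 - K 1 2 * K 2 1)

theorem univ3 : (univ : Finset (Finset (Fin 3))) =
    {∅, {0}, {1}, {2}, {0, 1}, {0, 2}, {1, 2}, univ} := by decide

theorem prob_empty (K : Matrix (Fin 3) (Fin 3) ℝ) :
    prob K ∅ = 1 - (K 0 0 + K 1 1 + K 2 2) + e2 K - K.det := by
  unfold prob
  have h : (univ : Finset (Finset (Fin 3))).filter (fun S => ∅ ⊆ S) =
    {∅, {0}, {1}, {2}, {0, 1}, {0, 2}, {1, 2}, univ} := by decide
  rw [h]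
  rw [Finset.sum_insert (by decide), Finset.sum_insert (by decide), Finset.sum_insert (by decide),
    Finset.sum_insert (by decide), Finset.sum_insert (by decide), Finset.sum_insert (by decide),
    Finset.sum_insert (by decide), Finset.sum_singleton]
  rw [minor_empty, minor_single, minor_single, minor_single,
    minor_pair _ _ _ (by decide), minor_pair _ _ _ (by decide), minor_pair _ _ _ (by decide),
    minor_univ]
  have c0 : (∅ \ ∅ : Finset (Fin 3)).card = 0 := by decide
  have c1 : ({0} \ ∅ : Finset (Fin 3)).card = 1 := by decide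
  have c2 : ({1} \ ∅ : Finset (Fin 3)).card = 1 := by decide
  have c3 : ({2} \ ∅ : Finset (Fin 3)).card = 1 := by decide
  have c4 : ({0, 1} \ ∅ : Finset (Fin 3)).card = 2 := by decide
  have c5 : ({0, 2} \ ∅ : Finset (Fin 3)).card = 2 := by decide
  have c6 : ({1, 2} \ ∅ : Finset (Fin 3)).card = 2 := by decide
  have c7 : (univ \ ∅ : Finset (Fin 3)).card = 3 := by decide
  rw [c0, c1, c2, c3, c4, c5, c6, c7]
  unfold e2
  ring

theorem prob_01 (K : Matrix (Fin 3) (Fin 3) ℝ) :
    prob K {0, 1} = (K 0 0 * K 1 1 - K 0 1 * K 1 0) - K.det := by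
  unfold prob
  have h : (univ : Finset (Finset (Fin 3))).filter (fun S => {0, 1} ⊆ S) =
    {{0, 1}, univ} := by decide
  rw [h, Finset.sum_insert (by decide), Finset.sum_singleton,
    minor_pair _ _ _ (by decide), minor_univ]
  have c0 : ({0, 1} \ {0, 1} : Finset (Fin 3)).card = 0 := by decide
  have c1 : (univ \ {0, 1} : Finset (Fin 3)).card = 1 := by decide
  rw [c0, c1]
  ring

theorem prob_02 (K : Matrix (Fin 3) (Fin 3) ℝ) :
    prob K {0, 2} = (K 0 0 * K 2 2 - K 0 2 * K 2 0) - K.det := by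
  unfold prob
  have h : (univ : Finset (Finset (Fin 3))).filter (fun S => {0, 2} ⊆ S) =
    {{0, 2}, univ} := by decide
  rw [h, Finset.sum_insert (by decide), Finset.sum_singleton,
    minor_pair _ _ _ (by decide), minor_univ]
  have c0 : ({0, 2} \ {0, 2} : Finset (Fin 3)).card = 0 := by decide
  have c1 : (univ \ {0, 2} : Finset (Fin 3)).card = 1 := by decide
  rw [c0, c1]
  ring

theorem prob_12 (K : Matrix (Fin 3) (Fin 3) ℝ) :
    prob K {1, 2} = (K 1 1 * K 2 2 - K 1 2 * K 2 1) - K.det := by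
  unfold prob
  have h : (univ : Finset (Finset (Fin 3))).filter (fun S => {1, 2} ⊆ S) =
    {{1, 2}, univ} := by decide
  rw [h, Finset.sum_insert (by decide), Finset.sum_singleton,
    minor_pair _ _ _ (by decide), minor_univ]
  have c0 : ({1, 2} \ {1, 2} : Finset (Fin 3)).card = 0 := by decide
  have c1 : (univ \ {1, 2} : Finset (Fin 3)).card = 1 := by decide
  rw [c0, c1]
  ring

/-- The training sets. -/
def train : Fin 6 → Finset (Fin 3) := ![∅, ∅, ∅, {0, 1}, {0, 2}, {1, 2}]

theorem likelihood_train (K : Matrix (Fin 3) (Fin 3) ℝ) :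
    likelihood K train = (1 - (K 0 0 + K 1 1 + K 2 2) + e2 K - K.det) ^ 3 *
      (((K 0 0 * K 1 1 - K 0 1 * K 1 0) - K.det) * ((K 0 0 * K 2 2 - K 0 2 * K 2 0) - K.det) *
        ((K 1 1 * K 2 2 - K 1 2 * K 2 1) - K.det)) := by
  unfold likelihood
  rw [Fin.prod_univ_six]
  have t0 : train 0 = ∅ := rfl
  have t1 : train 1 = ∅ := rfl
  have t2 : train 2 = ∅ := rfl
  have t3 : train 3 = {0, 1} := rfl
  have t4 : train 4 = {0, 2} := rfl
  have t5 : train 5 = {1, 2} := rfl
  rw [t0, t1, t2, t3, t4, t5, prob_empty, prob_01, prob_02, prob_12]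
  ring

/-! ### Compactness -/

theorem diag_nonneg {K : Matrix (Fin 3) (Fin 3) ℝ} (h : K.PosSemidef) (i : Fin 3) :
    0 ≤ K i i := h.diag_nonneg

theorem entry_bound {K : Matrix (Fin 3) (Fin 3) ℝ} (h : IsMarginal K) (i j : Fin 3) :
    |K i j| ≤ 1 := by
  obtain ⟨h1, h2⟩ := h
  have hd : ∀ i, 0 ≤ K i i := fun i => h1.diag_nonneg
  have hd' : ∀ i, K i i ≤ 1 := fun i => by
    have := h2.diag_nonneg (i := i)
    simp at this
    linarith
  have hsym : K j i = K i j := by
    have := h1.1.apply i j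
    simpa using this
  have hp := h1.dotProduct_mulVec_nonneg (Pi.single i 1 + Pi.single j 1)
  have hm := h1.dotProduct_mulVec_nonneg (Pi.single i 1 - Pi.single j 1)
  simp [Matrix.mulVec_add, Matrix.mulVec_sub, add_dotProduct, sub_dotProduct,
    dotProduct_add, dotProduct_sub] at hp hm
  rw [abs_le]
  constructor <;> nlinarith [hd i, hd j, hd' i, hd' j]

theorem compact_marginal : IsCompact {K : Matrix (Fin 3) (Fin 3) ℝ | IsMarginal K} := by
  have hpi : IsCompact (Set.univ.pi fun _ : Fin 3 => Set.univ.pi fun _ : Fin 3 =>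
      Set.Icc (-1 : ℝ) 1) :=
    isCompact_univ_pi fun _ => isCompact_univ_pi fun _ => isCompact_Icc
  refine hpi.of_isClosed_subset ?_ ?_
  · have hcl : IsClosed {K : Matrix (Fin 3) (Fin 3) ℝ | K.PosSemidef} := by
      have : {K : Matrix (Fin 3) (Fin 3) ℝ | K.PosSemidef} =
          {K | Kᴴ = K} ∩ ⋂ x : Fin 3 → ℝ, {K | 0 ≤ star x ⬝ᵥ (K *ᵥ x)} := by
        ext K
        simp only [Set.mem_ofPred_eq, Set.mem_inter_iff, Set.mem_iInter]
        rw [Matrix.posSemidef_iff_dotProduct_mulVec]
        rfl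
      rw [this]
      refine IsClosed.inter (isClosed_eq (by fun_prop) (by fun_prop)) ?_
      refine isClosed_iInter fun x => isClosed_le continuous_const ?_
      exact Continuous.dotProduct continuous_const (Continuous.matrix_mulVec continuous_id continuous_const)
    exact hcl.inter (hcl.preimage (continuous_const.sub continuous_id))
  · intro K hK i _ j _
    have := abs_le.mp (entry_bound hK i j)
    exact ⟨this.1, this.2⟩

theorem exists_optimal : ∃ K : Matrix (Fin 3) (Fin 3) ℝ, IsOptimal train K := by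
  have hc : ContinuousOn (fun K : Matrix (Fin 3) (Fin 3) ℝ => likelihood K train)
      {K : Matrix (Fin 3) (Fin 3) ℝ | IsMarginal K} := by
    have : (fun K : Matrix (Fin 3) (Fin 3) ℝ => likelihood K train) =
        fun K => (1 - (K 0 0 + K 1 1 + K 2 2) + e2 K - K.det) ^ 3 *
      (((K 0 0 * K 1 1 - K 0 1 * K 1 0) - K.det) * ((K 0 0 * K 2 2 - K 0 2 * K 2 0) - K.det) *
        ((K 1 1 * K 2 2 - K 1 2 * K 2 1) - K.det)) := by
      funext K
      exact likelihood_train K
    rw [this]
    apply Continuous.continuousOn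
    unfold e2
    have hdet : Continuous fun K : Matrix (Fin 3) (Fin 3) ℝ => K.det :=
      Continuous.matrix_det continuous_id
    have he : ∀ i j, Continuous fun K : Matrix (Fin 3) (Fin 3) ℝ => K i j :=
      fun i j => continuous_id.matrix_elem i j
    fun_prop
  have hne : {K : Matrix (Fin 3) (Fin 3) ℝ | IsMarginal K}.Nonempty := by
    refine ⟨0, ?_, ?_⟩
    · exact Matrix.PosSemidef.zero
    · simpa using (Matrix.PosSemidef.one : (1 : Matrix (Fin 3) (Fin 3) ℝ).PosSemidef)
  obtain ⟨K, hK, hmax⟩ := compact_marginal.exists_isMaxOn hne hc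
  exact ⟨K, hK, fun K' hK' => hmax hK'⟩

/-! ### The kernel `I / 3` -/

/-- The kernel `I / 3`. -/
noncomputable def third : Matrix (Fin 3) (Fin 3) ℝ := Matrix.diagonal fun _ => (1 / 3 : ℝ)

theorem third_marginal : IsMarginal third := by
  constructor
  · exact Matrix.PosSemidef.diagonal (fun _ => by norm_num)
  · have : (1 - third) = Matrix.diagonal fun _ => (2 / 3 : ℝ) := by
      unfold third
      rw [← Matrix.diagonal_one, Matrix.diagonal_sub]
      norm_num
    rw [this]
    exact Matrix.PosSemidef.diagonal (fun _ => by norm_num)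

theorem third_likelihood : likelihood third train = 4096 / 387420489 := by
  rw [likelihood_train]
  have hdet : third.det = 1 / 27 := by
    unfold third
    rw [Matrix.det_diagonal]
    simp
    norm_num
  rw [hdet]
  unfold e2 third
  simp [Matrix.diagonal]
  norm_num

/-! ### Upper bound for singular kernels -/

theorem det_one_sub (K : Matrix (Fin 3) (Fin 3) ℝ) :
    (1 - K).det = 1 - (K 0 0 + K 1 1 + K 2 2) + e2 K - K.det := by
  rw [Matrix.det_fin_three, Matrix.det_fin_three]
  unfold e2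
  simp
  ring

theorem det_one_add (K : Matrix (Fin 3) (Fin 3) ℝ) :
    (1 + K).det = 1 + (K 0 0 + K 1 1 + K 2 2) + e2 K + K.det := by
  rw [Matrix.det_fin_three, Matrix.det_fin_three]
  unfold e2
  simp
  ring

/-- With eigenvalues `x y z`. -/
theorem eig (K : Matrix (Fin 3) (Fin 3) ℝ) (h : K.PosSemidef) :
    ∃ x y z : ℝ, 0 ≤ x ∧ 0 ≤ y ∧ 0 ≤ z ∧ K.det = x * y * z ∧
      K 0 0 + K 1 1 + K 2 2 = x + y + z ∧ e2 K = x * y + x * z + y * z := by
  have hH := h.1
  have hcp := hH.charpoly_eq
  refine ⟨hH.eigenvalues 0, hH.eigenvalues 1, hH.eigenvalues 2, h.eigenvalues_nonneg 0,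
    h.eigenvalues_nonneg 1, h.eigenvalues_nonneg 2, ?_, ?_, ?_⟩
  · have := hH.det_eq_prod_eigenvalues
    simpa [Fin.prod_univ_three] using this
  · have := hH.trace_eq_sum_eigenvalues
    simpa [Matrix.trace, Fin.sum_univ_three] using this
  · have h1 := congrArg (Polynomial.eval (1 : ℝ)) hcp
    rw [Matrix.eval_charpoly, Polynomial.eval_prod] at h1
    simp only [Fin.prod_univ_three, Polynomial.eval_sub, Polynomial.eval_X, Polynomial.eval_C,
      map_one] at h1
    rw [det_one_sub] at h1
    have hd := hH.det_eq_prod_eigenvalues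
    have ht := hH.trace_eq_sum_eigenvalues
    simp [Matrix.trace, Fin.sum_univ_three] at ht
    simp [Fin.prod_univ_three] at hd
    simp at h1
    nlinarith [h1, hd, ht]

theorem minor_nonneg {N : ℕ} {K : Matrix (Fin N) (Fin N) ℝ} (h : K.PosSemidef)
    (S : Finset (Fin N)) : 0 ≤ minor K S := (h.submatrix _).det_nonneg

theorem root_nonneg {x x' y' z' : ℝ} (hx : 0 ≤ x') (hy : 0 ≤ y') (hz : 0 ≤ z')
    (h : (x - x') * (x - y') * (x - z') = 0) : 0 ≤ x := by
  rcases mul_eq_zero.mp h with h | h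
  · rcases mul_eq_zero.mp h with h | h <;> linarith
  · linarith

theorem singular_bound {K : Matrix (Fin 3) (Fin 3) ℝ} (h : IsMarginal K) (hd : K.det = 0) :
    likelihood K train ≤ 1 / 110592 := by
  obtain ⟨x, y, z, hx, hy, hz, e3', e1', e2'⟩ := eig K h.1
  obtain ⟨x', y', z', hx', hy', hz', f3, f1, f2⟩ := eig (1 - K) h.2
  rw [det_one_sub, hd] at f3
  have g1 : (1 - K) 0 0 + (1 - K) 1 1 + (1 - K) 2 2 = 3 - (K 0 0 + K 1 1 + K 2 2) := by
    simp
    ring
  have g2 : e2 (1 - K) = 3 - 2 * (K 0 0 + K 1 1 + K 2 2) + e2 K := by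
    unfold e2
    simp
    ring
  rw [g1, e1'] at f1
  rw [g2, e1', e2'] at f2
  rw [e1', e2'] at f3
  rw [hd] at e3'
  have hx1 : 0 ≤ 1 - x := by
    refine root_nonneg (x := 1 - x) hx' hy' hz' ?_
    have : (1 - x - x') * (1 - x - y') * (1 - x - z') =
      (1 - x) ^ 3 - (x' + y' + z') * (1 - x) ^ 2 + (x' * y' + x' * z' + y' * z') * (1 - x)
        - x' * y' * z' := by ring
    rw [this, ← f1, ← f2, ← f3]
    linear_combination e3'
  have hy1 : 0 ≤ 1 - y := by
    refine root_nonneg (x := 1 - y) hx' hy' hz' ?_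
    have : (1 - y - x') * (1 - y - y') * (1 - y - z') =
      (1 - y) ^ 3 - (x' + y' + z') * (1 - y) ^ 2 + (x' * y' + x' * z' + y' * z') * (1 - y)
        - x' * y' * z' := by ring
    rw [this, ← f1, ← f2, ← f3]
    linear_combination e3'
  have hz1 : 0 ≤ 1 - z := by
    refine root_nonneg (x := 1 - z) hx' hy' hz' ?_
    have : (1 - z - x') * (1 - z - y') * (1 - z - z') =
      (1 - z) ^ 3 - (x' + y' + z') * (1 - z) ^ 2 + (x' * y' + x' * z' + y' * z') * (1 - z)
        - x' * y' * z' := by ring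
    rw [this, ← f1, ← f2, ← f3]
    linear_combination e3'
  have m1 := minor_nonneg h.1 {0, 1}
  have m2 := minor_nonneg h.1 {0, 2}
  have m3 := minor_nonneg h.1 {1, 2}
  rw [minor_pair _ _ _ (by decide)] at m1 m2 m3
  rw [likelihood_train, hd, e1', e2', sub_zero, sub_zero, sub_zero, sub_zero]
  have hsum : (K 0 0 * K 1 1 - K 0 1 * K 1 0) + (K 0 0 * K 2 2 - K 0 2 * K 2 0) +
    (K 1 1 * K 2 2 - K 1 2 * K 2 1) = x * y + x * z + y * z := e2'
  generalize (K 0 0 * K 1 1 - K 0 1 * K 1 0) = a at *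
  generalize (K 0 0 * K 2 2 - K 0 2 * K 2 0) = b at *
  generalize (K 1 1 * K 2 2 - K 1 2 * K 2 1) = c at *
  have amgm : 27 * (a * b * c) ≤ (a + b + c) ^ 3 := by
    nlinarith [mul_nonneg m1 (sq_nonneg (b - c)), mul_nonneg m2 (sq_nonneg (a - c)),
      mul_nonneg m3 (sq_nonneg (a - b)), mul_nonneg m1 (sq_nonneg (a - b)),
      mul_nonneg m1 (sq_nonneg (a - c)), mul_nonneg m2 (sq_nonneg (b - a)),
      mul_nonneg m2 (sq_nonneg (b - c)), mul_nonneg m3 (sq_nonneg (c - a)),
      mul_nonneg m3 (sq_nonneg (c - b))]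
  rw [hsum] at amgm
  have main : ∀ u v : ℝ, 0 ≤ u → 0 ≤ v → 0 ≤ 1 - u → 0 ≤ 1 - v →
      1 - (x + y + z) + (x * y + x * z + y * z) = (1 - u) * (1 - v) →
      x * y + x * z + y * z = u * v →
      (1 - (x + y + z) + (x * y + x * z + y * z)) ^ 3 * (a * b * c) ≤ 1 / 110592 := by
    intro u v hu hv hu1 hv1 r1 r2
    rw [r1]
    rw [r2] at amgm
    have hu4 : u * (1 - u) ≤ 1 / 4 := by nlinarith [sq_nonneg (u - 1 / 2)]
    have hv4 : v * (1 - v) ≤ 1 / 4 := by nlinarith [sq_nonneg (v - 1 / 2)]
    have huv : (u * (1 - u)) * (v * (1 - v)) ≤ 1 / 16 := by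
      have := mul_le_mul hu4 hv4 (mul_nonneg hv hv1) (by norm_num)
      linarith
    have huv0 : 0 ≤ (u * (1 - u)) * (v * (1 - v)) :=
      mul_nonneg (mul_nonneg hu hu1) (mul_nonneg hv hv1)
    have h3 : ((u * (1 - u)) * (v * (1 - v))) ^ 3 ≤ (1 / 16) ^ 3 := pow_le_pow_left₀ huv0 huv 3
    have h4 : ((1 - u) * (1 - v)) ^ 3 * (27 * (a * b * c)) ≤
        ((1 - u) * (1 - v)) ^ 3 * (u * v) ^ 3 :=
      mul_le_mul_of_nonneg_left amgm (by positivity)
    have h5 : ((1 - u) * (1 - v)) ^ 3 * (u * v) ^ 3 = ((u * (1 - u)) * (v * (1 - v))) ^ 3 := by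
      ring
    rw [h5] at h4
    have h6 : ((1 - u) * (1 - v)) ^ 3 * (a * b * c) =
        (((1 - u) * (1 - v)) ^ 3 * (27 * (a * b * c))) / 27 := by ring
    rw [h6]
    have h7 : ((1 - u) * (1 - v)) ^ 3 * (27 * (a * b * c)) ≤ (1 / 16) ^ 3 := h4.trans h3
    calc (((1 - u) * (1 - v)) ^ 3 * (27 * (a * b * c))) / 27 ≤ (1 / 16) ^ 3 / 27 :=
          div_le_div_of_nonneg_right h7 (by norm_num)
      _ = 1 / 110592 := by norm_num
  have h0 : x * y * z = 0 := e3'.symm
  rcases mul_eq_zero.mp h0 with h0 | h0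
  · rcases mul_eq_zero.mp h0 with h0 | h0
    · exact main y z hy hz hy1 hz1 (by rw [h0]; ring) (by rw [h0]; ring)
    · exact main x z hx hz hx1 hz1 (by rw [h0]; ring) (by rw [h0]; ring)
  · exact main x y hx hy hx1 hy1 (by rw [h0]; ring) (by rw [h0]; ring)

theorem optimal_rank {K : Matrix (Fin 3) (Fin 3) ℝ} (h : IsOptimal train K) : K.rank = 3 := by
  by_cases hd : K.det = 0
  · have h1 := singular_bound h.1 hd
    have h2 := h.2 third third_marginal
    rw [third_likelihood] at h2
    norm_num at h1 h2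
    linarith
  · have : IsUnit K := (Matrix.isUnit_iff_isUnit_det K).mpr (isUnit_iff_ne_zero.mpr hd)
    rw [Matrix.rank_of_isUnit K this]
    simp

theorem train_card : ∀ t, (train t).card ≤ 2 := by decide

/-- There are a training set of subsets with at most `k` elements each and an optimal marginal
kernel for it whose rank is larger than `k`. -/
theorem result : ∃ (k N m : ℕ) (X : Fin m → Finset (Fin N)) (K : Matrix (Fin N) (Fin N) ℝ),
    1 ≤ k ∧ (∀ t, (X t).card ≤ k) ∧ IsOptimal X K ∧ k < K.rank := by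
  obtain ⟨K, hK⟩ := exists_optimal
  exact ⟨2, 3, 6, train, K, by norm_num, train_card, hK, by rw [optimal_rank hK]; norm_num⟩

end Pool.Agent.Results.MP_dbbe21_pr.RankFails
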